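import Pool.Agent.Lib.MP_86319c_co.Main
import Pool.Agent.Lib.MP_86319c_co.Conv

set_option autoImplicit false

namespace Pool.Agent.Results.MP_86319c_co.KLSets

/-- the Euclidean plane -/
abbrev Plane : Type := EuclideanSpace ℝ (Fin 2)

/-- no three distinct points of `A` are collinear -/
def GenPos (A : Set Plane) : Prop :=
  ∀ x ∈ A, ∀ y ∈ A, ∀ z ∈ A, x ≠ y → y ≠ z → x ≠ z → ¬ Collinear ℝ ({x, y, z} : Set Plane)

/-- no straight line through two distinct points of `K` meets the convex hull of `L` -/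
def Avoids (K L : Set Plane) : Prop :=
  ∀ a ∈ K, ∀ b ∈ K, a ≠ b → ∀ t : ℝ, a + t • (b - a) ∉ convexHull ℝ L

/-- `S` is a `(k,l)`-set of `A` -/
def IsKLSet (k l : ℕ) (A S : Set Plane) : Prop :=
  S ⊆ A ∧ S.encard = (k + l : ℕ) ∧ ∃ K L : Set Plane, S = K ∪ L ∧ Disjoint K L ∧
    K.encard = k ∧ L.encard = l ∧ Avoids K L ∧ Avoids L K ∧
    ∀ x ∈ A \ S, x ∉ convexHull ℝ S

theorem avoids_of_inter {K L : Set Plane}
    (h : ∀ a ∈ K, ∀ b ∈ K, a ≠ b →
      ((affineSpan ℝ ({a, b} : Set Plane) : Set Plane) ∩ convexHull ℝ L) = ∅) : Avoids K L := by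
  intro a ha b hb hab t ht
  have h1 : a + t • (b - a) ∈ affineSpan ℝ ({a, b} : Set Plane) := by
    have := AffineMap.lineMap_mem_affineSpan_pair t a b
    rwa [AffineMap.lineMap_apply, vsub_eq_sub, vadd_eq_add, add_comm] at this
  have h2 : a + t • (b - a) ∈
      ((affineSpan ℝ ({a, b} : Set Plane) : Set Plane) ∩ convexHull ℝ L) := ⟨h1, ht⟩
  rw [h a ha b hb hab] at h2
  exact h2

/-- Every large enough finite planar point set in general position has a `(k,l)`-set. -/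
theorem result :
    ∀ k l : ℕ, 2 ≤ k → 2 ≤ l → ∃ p : ℕ, ∀ A : Set Plane, A.Finite → GenPos A → p ≤ A.ncard →
      ∃ S : Set Plane, IsKLSet k l A S := by
  classical
  intro k l hk _
  obtain ⟨n0, hn0⟩ := Pool.Agent.Lib.MP_86319c_co.exists_KL (ι := Plane) k l hk
  refine ⟨n0, fun A hfin hgp hA => ?_⟩
  lift A to Finset Plane using hfin
  rw [Set.ncard_coe_finset] at hA
  obtain ⟨K, L, hd, hK, hL, hI, h1, h2⟩ := hn0 A _ _
    (Pool.Agent.Lib.MP_86319c_co.gp_of_not_collinear A hgp) hA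
  refine ⟨((K ∪ L : Finset Plane) : Set Plane), fun a ha => hI.1 ha, ?_, K, L, by simp,
    Finset.disjoint_coe.2 hd, ?_, ?_,
    avoids_of_inter (Pool.Agent.Lib.MP_86319c_co.span_inter_hull_of_avoid K L h1),
    avoids_of_inter (Pool.Agent.Lib.MP_86319c_co.span_inter_hull_of_avoid L K h2),
    fun x hx hxc => hx.2 ?_⟩
  · rw [Set.encard_coe_eq_coe_finsetCard, Finset.card_union_of_disjoint hd, hK, hL]
  · rw [Set.encard_coe_eq_coe_finsetCard, hK]
  · rw [Set.encard_coe_eq_coe_finsetCard, hL]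
  · exact hI.2 x hx.1 (Pool.Agent.Lib.MP_86319c_co.inH_of_mem_convexHull _ x hxc)

end Pool.Agent.Results.MP_86319c_co.KLSets
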